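import Mathlib

set_option autoImplicit false

namespace Pool.Agent.Results.MP_5a34df_al.Grading

open Matrix

/-- The class of the matrix unit `E i j`: the diagonal units form class `0`, the units `E 0 1` and
`E 1 2` form class `1`, and the other four units are alone in their classes. -/
def cls : Fin 3 → Fin 3 → Fin 6 := ![![0, 1, 2], ![3, 0, 1], ![4, 5, 0]]

/-- The span of the matrix units of class `g`. -/
def comp (K : Type) [Field K] (g : Fin 6) : Submodule K (Matrix (Fin 3) (Fin 3) K) where
  carrier := {M | ∀ i j, cls i j ≠ g → M i j = 0}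
  add_mem' ha hb i j h := by simp [ha i j h, hb i j h]
  zero_mem' _ _ _ := rfl
  smul_mem' c _ ha i j h := by simp [ha i j h]

/-- The operation on classes. -/
def op : Fin 6 → Fin 6 → Fin 6 :=
  ![![0, 1, 2, 3, 4, 5], ![1, 2, 0, 0, 3, 0], ![2, 0, 0, 0, 0, 1], ![3, 0, 1, 0, 0, 0],
    ![4, 5, 0, 0, 0, 0], ![5, 0, 0, 4, 0, 0]]

theorem op_cls : ∀ i j k, op (cls i j) (cls j k) = cls i k := by decide

theorem single_mem (K : Type) [Field K] (i j : Fin 3) (a : K) :
    single i j a ∈ comp K (cls i j) := fun p q h => by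
  rw [single_apply, if_neg]
  rintro ⟨rfl, rfl⟩
  exact h rfl

theorem ne_bot (K : Type) [Field K] (i j k : Fin 3) : comp K (cls i j) * comp K (cls j k) ≠ ⊥ := by
  intro h
  have := Submodule.mul_mem_mul (single_mem K i j 1) (single_mem K j k 1)
  rw [h, Submodule.mem_bot, single_mul_single_same, one_mul] at this
  simpa using congrFun (congrFun this i) k

theorem result (K : Type) [Field K] :
    ∃ (Γ : Type) (_ : DecidableEq Γ) (A : Γ → Submodule K (Matrix (Fin 3) (Fin 3) K))
      (op : Γ → Γ → Γ), DirectSum.IsInternal A ∧ (∀ g, A g ≠ ⊥) ∧ (∀ g h, A g * A h ≤ A (op g h)) ∧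
      ∀ (S : Type) [Semigroup S] (ι : Γ → S), (∀ g h, A g * A h ≠ ⊥ → ι (op g h) = ι g * ι h) →
        ¬ Function.Injective ι := by
  refine ⟨Fin 6, inferInstance, comp K, op, ?_, fun g h => ?_, fun g h => ?_, fun S _ ι hι hi => ?_⟩
  · rw [DirectSum.isInternal_submodule_iff_iSupIndep_and_iSup_eq_top]
    constructor
    · intro g
      rw [Submodule.disjoint_def]
      intro M h1 h2
      ext i j
      by_cases h : cls i j = g
      · refine Submodule.iSup_induction (motive := fun M => M i j = 0) _ h2 (fun g' M hM => ?_) rfl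
          fun M N hM hN => by simp [hM, hN]
        by_cases e : g' = g
        · simp only [e, ne_eq, not_true_eq_false, not_false_eq_true, iSup_neg,
            Submodule.mem_bot] at hM
          rw [hM]; rfl
        · rw [iSup_pos e] at hM
          exact hM i j (h ▸ Ne.symm e)
      · exact h1 i j h
    · refine eq_top_iff.2 fun M _ => ?_
      rw [matrix_eq_sum_single M]
      exact Submodule.sum_mem _ fun i _ => Submodule.sum_mem _ fun j _ =>
        Submodule.mem_iSup_of_mem _ (single_mem K i j _)
  · obtain ⟨i, j, rfl⟩ : ∃ i j, cls i j = g := by clear h; revert g; decide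
    have := single_mem K i j 1
    rw [h, Submodule.mem_bot] at this
    simpa using congrFun (congrFun this i) j
  · refine Submodule.mul_le.2 fun M hM N hN i k hik => ?_
    rw [mul_apply]
    refine Finset.sum_eq_zero fun j _ => ?_
    by_cases h1 : cls i j = g
    · rw [hN j k fun h2 => hik (by rw [← h1, ← h2, op_cls]), mul_zero]
    · rw [hM i j h1, zero_mul]
  · have key : ∀ i j k, ι (cls i k) = ι (cls i j) * ι (cls j k) := fun i j k => by
      rw [← hι _ _ (ne_bot K i j k), op_cls]
    have h1 : ι 3 = ι 3 * ι 0 := key 1 0 0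
    have h2 : ι 0 = ι 1 * ι 5 := key 1 2 1
    have h3 : ι 0 = ι 3 * ι 1 := key 1 0 1
    have h4 : ι 5 = ι 0 * ι 5 := key 2 2 1
    have : ι 3 = ι 5 := by rw [h1, h2, ← mul_assoc, ← h3, ← h4]
    exact absurd (hi this) (by decide)

end Pool.Agent.Results.MP_5a34df_al.Grading
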